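import Pool.Agent.H.MP_dc74b6_ag.A

set_option autoImplicit false

namespace Pool.Agent.Results.MP_dc74b6_ag.Embedded

open MvPolynomial

/-- The edge ideal of a family of edges. -/
noncomputable def edgeIdeal (k : Type) [Field k] {σ : Type} (C : Finset (Finset σ)) :
    Ideal (MvPolynomial σ k) :=
  Ideal.span {p | ∃ e ∈ C, p = ∏ i ∈ e, X i}

/-- The polynomial `∑ j < n, a j * t ^ j`. -/
noncomputable def series {A : Type} [CommRing A] {n : ℕ} (a : Fin n → A) : Polynomial A :=
  ∑ j : Fin n, Polynomial.monomial (j : ℕ) (a j)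

/-- The substitution of `∑ j, x (i, j) * t ^ j` for the `i`-th variable. -/
noncomputable def substAux (k : Type) [Field k] {σ A : Type} [CommRing A] [Algebra k A] {n : ℕ}
    (x : σ × Fin n → A) (f : MvPolynomial σ k) : Polynomial A :=
  aeval (fun i => series fun j => x (i, j)) f

/-- The substitution of `∑ j ≤ s, x_{i,j} t ^ j` for `x_i`. -/
noncomputable def subst (k : Type) [Field k] {σ : Type} (s : ℕ) (f : MvPolynomial σ k) :
    Polynomial (MvPolynomial (σ × Fin (s + 1)) k) :=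
  substAux k X f

/-- The ideal of `s`-jets. -/
noncomputable def jet {k : Type} [Field k] {σ : Type} (s : ℕ) (I : Ideal (MvPolynomial σ k)) :
    Ideal (MvPolynomial (σ × Fin (s + 1)) k) :=
  Ideal.span {p | ∃ f ∈ I, ∃ j ≤ s, p = (subst k s f).coeff j}

/-- `J` has an associated prime that is not minimal over `J`. -/
def HasEmbedded {S : Type} [CommRing S] (J : Ideal S) : Prop :=
  ∃ P : Ideal S, IsAssociatedPrime P (S ⧸ J) ∧ P ∉ J.minimalPrimes

theorem result (k : Type) [Field k] : ∃ C : Finset (Finset (Fin 5)), (∀ e ∈ C, e.Nonempty) ∧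
    IsAntichain (· ⊆ ·) (C : Set (Finset (Fin 5))) ∧ HasEmbedded (jet 1 (edgeIdeal k C)) := by
  let C : Finset (Finset (Fin 5)) := Finset.univ.image fun a => {a, a + 1, a + 2}
  have e : ∀ a : Fin 5, (subst k 1 (∏ i ∈ {a, a + 1, a + 2}, X i)).coeff 0 =
      X (a, 0) * X (a + 1, 0) * X (a + 2, 0) ∧
      (subst k 1 (∏ i ∈ {a, a + 1, a + 2}, X i)).coeff 1 =
      X (a, 1) * X (a + 1, 0) * X (a + 2, 0) + X (a, 0) * X (a + 1, 1) * X (a + 2, 0) +
        X (a, 0) * X (a + 1, 0) * X (a + 2, 1) := fun a => by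
    rw [Finset.prod_insert (by revert a; decide), Finset.prod_pair (by revert a; decide)]
    simp [subst, substAux, series, Polynomial.mul_coeff_one, Polynomial.coeff_monomial]
    constructor <;> ring
  have mem : ∀ a : Fin 5, ∏ i ∈ {a, a + 1, a + 2}, X i ∈ edgeIdeal k C := fun a =>
    Ideal.subset_span ⟨_, Finset.mem_image_of_mem _ (Finset.mem_univ a), rfl⟩
  have le : ∀ K : Ideal (MvPolynomial (Fin 5 × Fin 2) k),
      (∀ a : Fin 5, X (a, 0) * X (a + 1, 0) * X (a + 2, 0) ∈ K) →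
      (∀ a : Fin 5, X (a, 1) * X (a + 1, 0) * X (a + 2, 0) +
        X (a, 0) * X (a + 1, 1) * X (a + 2, 0) + X (a, 0) * X (a + 1, 0) * X (a + 2, 1) ∈ K) →
      jet 1 (edgeIdeal k C) ≤ K := fun K h1 h2 => by
    have : ∀ f ∈ edgeIdeal k C, (subst k 1 f).coeff 0 ∈ K ∧ (subst k 1 f).coeff 1 ∈ K := by
      intro f hf
      induction hf using Submodule.span_induction with
      | mem f hf =>
        obtain ⟨_, hf, rfl⟩ := hf
        obtain ⟨a, -, rfl⟩ := Finset.mem_image.1 hf
        rw [(e a).1, (e a).2]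
        exact ⟨h1 a, h2 a⟩
      | zero => simp [subst, substAux]
      | add f g _ _ h h' =>
        simp only [subst, substAux, map_add, Polynomial.coeff_add] at h h' ⊢
        exact ⟨add_mem h.1 h'.1, add_mem h.2 h'.2⟩
      | smul r f _ h =>
        simp only [subst, substAux, smul_eq_mul, map_mul, Polynomial.mul_coeff_zero,
          Polynomial.mul_coeff_one] at h ⊢
        exact ⟨K.mul_mem_left _ h.1, add_mem (K.mul_mem_left _ h.2) (K.mul_mem_left _ h.1)⟩
    refine Ideal.span_le.2 ?_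
    rintro _ ⟨f, hf, j, hj, rfl⟩
    interval_cases j
    exacts [(this f hf).1, (this f hf).2]
  refine ⟨C, by decide, fun a ha b hb h h' => h ?_, ?_⟩
  · have : ∀ a ∈ C, a.card = 3 := by decide
    exact Finset.eq_of_subset_of_card_le h' ((this b hb).trans (this a ha).symm).le
  obtain ⟨P, h1, -, h3⟩ := Lss.exists_ass (jet 1 (edgeIdeal k C)) (Ideal.Quotient.mk _)
    (fun x => Ideal.Quotient.eq_zero_iff_mem.2) (Jet.gg k) fun h =>
      Jet.gg_not (le _ Jet.cub Jet.quad (Ideal.Quotient.eq_zero_iff_mem.1 h))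
  have hx : ∀ a : Fin 5, X (a, 0) ∈ P := fun a => h1.isPrime.mem_of_pow_mem 2 (h3 _ (Jet.gg_ann
    (fun a => (e a).1 ▸ Ideal.subset_span ⟨_, mem a, 0, zero_le_one, rfl⟩)
    (fun a => (e a).2 ▸ Ideal.subset_span ⟨_, mem a, 1, le_rfl, rfl⟩) a))
  let ψ : MvPolynomial (Fin 5 × Fin 2) k →ₐ[k] MvPolynomial (Fin 5 × Fin 2) k :=
    aeval fun p => if p.2 = 0 ∧ p.1 ≠ 0 then 0 else X p
  refine ⟨P, h1, Lss.not_min ψ.toRingHom (le (RingHom.ker ψ) (fun a => ?_) fun a => ?_)
    (fun x hx' => ?_) (hx 0) (by simp [ψ])⟩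
  · fin_cases a <;> simp [RingHom.mem_ker, ψ]
  · fin_cases a <;> simp [RingHom.mem_ker, ψ]
  · have : (Ideal.Quotient.mkₐ k P).comp ψ = Ideal.Quotient.mkₐ k P := by
      refine algHom_ext fun ⟨i, j⟩ => ?_
      simp only [ψ, AlgHom.comp_apply, aeval_X]
      split_ifs with h
      · obtain rfl : j = 0 := h.1
        exact (map_zero _).trans (Ideal.Quotient.eq_zero_iff_mem.2 (hx i)).symm
      · rfl
    have h2 := DFunLike.congr_fun this x
    rw [AlgHom.comp_apply, show ψ x = 0 from hx', map_zero] at h2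
    exact Ideal.Quotient.eq_zero_iff_mem.1 h2.symm

end Pool.Agent.Results.MP_dc74b6_ag.Embedded
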